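import Pool.Agent.H93.SM.Iface
import Pool.Agent.H69.UC.A2Main
import Pool.Agent.H21.UC.ArcC
import Pool.Agent.H11.SM.ECT
import Pool.Agent.H11.UC.A1

set_option autoImplicit false
open Metric Set Filter Topology Pool.Agent.H7.UC Pool.Agent.H74.Tri

/-!
# MP_2e6055, module SM, statement (b): a state is good if a path from the middle reaches outer faces
of both colours away from the tip.
-/

namespace Pool.Agent.H45.SM

open Pool.Agent.H93.SM

/-! ### arcs of the unit circle -/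

lemma norm_exp_sub_one (t : ℝ) : ‖Complex.exp (t * Complex.I) - 1‖ = |2 * Real.sin (t / 2)| := by
  have h1 : ‖Complex.exp (t * Complex.I) - 1‖ ^ 2 = (2 * Real.sin (t / 2)) ^ 2 := by
    rw [← Complex.normSq_eq_norm_sq, Complex.normSq_apply]
    simp only [Complex.sub_re, Complex.sub_im, Complex.one_re, Complex.one_im,
      Complex.exp_ofReal_mul_I_re, Complex.exp_ofReal_mul_I_im]
    have h2 : Real.cos t = 1 - 2 * Real.sin (t / 2) ^ 2 := by
      have := Real.cos_two_mul (t / 2)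
      have h3 := Real.sin_sq_add_cos_sq (t / 2)
      rw [show 2 * (t / 2) = t by ring] at this
      linarith
    have h4 := Real.sin_sq_add_cos_sq t
    nlinarith
  rw [← sq_abs (2 * Real.sin (t / 2))] at h1
  exact (pow_left_inj₀ (norm_nonneg _) (abs_nonneg _) two_ne_zero).1 h1

/-- the points of the unit circle at distance more than `s` of `p` form a connected set -/
lemma preconn_far {p : ℂ} (hp : ‖p‖ = 1) (s : ℝ) : IsPreconnected {w : ℂ | ‖w‖ = 1 ∧ s < ‖w - p‖} := by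
  have hconv : Convex ℝ {t : ℝ | t ∈ Icc 0 (2 * Real.pi) ∧ s < 2 * Real.sin (t / 2)} := by
    intro x hx y hy a b ha hb hab
    refine ⟨(convex_Icc _ _) hx.1 hy.1 ha hb hab, ?_⟩
    have hc := strictConcaveOn_sin_Icc.concaveOn.2 (x := x / 2) (y := y / 2)
      ⟨by linarith [hx.1.1], by linarith [hx.1.2]⟩ ⟨by linarith [hy.1.1], by linarith [hy.1.2]⟩ ha hb hab
    simp only [smul_eq_mul] at hc ⊢
    have e : (a * x + b * y) / 2 = a * (x / 2) + b * (y / 2) := by ring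
    rw [e]
    have h1 := hx.2
    have h2 := hy.2
    rcases eq_or_lt_of_le ha with h0 | h0
    · have hb1 : b = 1 := by linarith
      rw [← h0, hb1] at hc ⊢
      linarith
    · have h3 := mul_lt_mul_of_pos_left h1 h0
      have h4 := mul_le_mul_of_nonneg_left h2.le hb
      have h5 : a * s + b * s = s := by rw [← add_mul, hab, one_mul]
      linarith
  have himg : {w : ℂ | ‖w‖ = 1 ∧ s < ‖w - p‖} =
      (fun t : ℝ => p * Complex.exp (t * Complex.I)) ''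
        {t : ℝ | t ∈ Icc 0 (2 * Real.pi) ∧ s < 2 * Real.sin (t / 2)} := by
    have hn : ∀ t : ℝ, ‖p * Complex.exp (t * Complex.I) - p‖ = |2 * Real.sin (t / 2)| := by
      intro t
      rw [← norm_exp_sub_one]
      have : p * Complex.exp (t * Complex.I) - p = p * (Complex.exp (t * Complex.I) - 1) := by ring
      rw [this, norm_mul, hp, one_mul]
    have hpos : ∀ t ∈ Icc (0 : ℝ) (2 * Real.pi), |2 * Real.sin (t / 2)| = 2 * Real.sin (t / 2) := by
      intro t ht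
      apply abs_of_nonneg
      have := Real.sin_nonneg_of_nonneg_of_le_pi (x := t / 2) (by linarith [ht.1]) (by linarith [ht.2])
      linarith
    ext w
    constructor
    · rintro ⟨hw, hs⟩
      have hu : dist (w * (starRingEnd ℂ) p) 0 = 1 := by
        rw [dist_zero_right, norm_mul, hw, Complex.norm_conj, hp, one_mul]
      obtain ⟨t, ht, he⟩ := Pool.Agent.H69.UC.exists_angle one_pos hu
      rw [Complex.arg_zero, zero_add, circleMap, zero_add, Complex.ofReal_one, one_mul] at he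
      have hpp : p * (starRingEnd ℂ) p = 1 := by
        rw [Complex.mul_conj, Complex.normSq_eq_norm_sq, hp]; norm_num
      have hw2 : p * Complex.exp (t * Complex.I) = w := by
        rw [he]; linear_combination w * hpp
      have ht' : t ∈ Icc (0 : ℝ) (2 * Real.pi) := ⟨ht.1.le, ht.2⟩
      refine ⟨t, ⟨ht', ?_⟩, hw2⟩
      rw [← hpos t ht', ← hn t, hw2]
      exact hs
    · rintro ⟨t, ⟨ht, hs⟩, rfl⟩
      refine ⟨?_, ?_⟩
      · simp only
        rw [norm_mul, hp, Complex.norm_exp_ofReal_mul_I, one_mul]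
      · simp only
        rw [hn, hpos t ht]
        exact hs
  rw [himg]
  exact hconv.isPreconnected.image _ (by fun_prop)

/-! ### arcs between `n` marks -/

section Arcs

variable {U : Finset Fc} {n : ℕ} [NeZero n] (M : Marks U n)

/-- if two arcs meet at the vertex `v` then `v` is an end of the first one -/
lemma end_of_two {v : Vx} {i j : Fin n} (hij : i ≠ j) {k k' : Fin 3} (h : ed v k ∈ M.C i)
    (h' : ed v k' ∈ M.C j) : v = M.u i ∨ v = M.u (i + 1) := by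
  have hB : isB U (ed v k) := (M.mem _).2 ⟨i, h⟩
  have hB' : isB U (ed v k') := (M.mem _).2 ⟨j, h'⟩
  have hdis : ∀ e, e ∈ M.C i → e ∉ M.C j := fun e he he' =>
    Finset.disjoint_left.1 (M.disj i j hij) he he'
  have hkk : k ≠ k' := by
    rintro rfl; exact hdis _ h h'
  have h3 : ∀ l, l ≠ k → l ≠ k' → ed v l ∉ M.C i := by
    intro l hl hl' hmem
    have hB3 : isB U (ed v l) := (M.mem _).2 ⟨i, hmem⟩
    rw [Pool.Agent.H21.UC.isB_iff] at hB hB' hB3
    revert hB hB' hB3 hl hl' hkk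
    clear hmem h h' hdis
    have r1 : (0 : Fin 3) + 1 = 1 := rfl
    have r2 : (0 : Fin 3) + 2 = 2 := rfl
    have r3 : (1 : Fin 3) + 1 = 2 := rfl
    have r4 : (1 : Fin 3) + 2 = 0 := rfl
    have r5 : (2 : Fin 3) + 1 = 0 := rfl
    have r6 : (2 : Fin 3) + 2 = 1 := rfl
    fin_cases k <;> fin_cases k' <;> fin_cases l <;>
      simp only [Fin.zero_eta, Fin.mk_one, Fin.reduceFinMk, r1, r2, r3, r4, r5, r6, ne_eq,
        not_true_eq_false, IsEmpty.forall_iff, not_false_eq_true, forall_const, Fin.reduceEq,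
        implies_true] <;> tauto
  have hdv := M.dvC i v
  have hval : dv (ind (↑(M.C i) : Set Ed)) v = 1 := by
    have v1 : ind (↑(M.C i) : Set Ed) (ed v k) = 1 :=
      (Pool.Agent.H21.UC.ind_val _ _).1 (by exact_mod_cast h)
    have v2 : ind (↑(M.C i) : Set Ed) (ed v k') = 0 := (Pool.Agent.H21.UC.ind_val _ _).2 (by
      intro hm
      exact hdis _ (by exact_mod_cast hm) h')
    have v3 : ∀ l, l ≠ k → l ≠ k' → ind (↑(M.C i) : Set Ed) (ed v l) = 0 := fun l hl hl' =>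
      (Pool.Agent.H21.UC.ind_val _ _).2 (by
        intro hm
        exact h3 l hl hl' (by exact_mod_cast hm))
    rw [dv]
    fin_cases k <;> fin_cases k' <;>
      simp only [Fin.zero_eta, Fin.mk_one, Fin.reduceFinMk, ne_eq, not_true_eq_false] at v1 v2 v3 hkk
    · rw [v1, v2, v3 2 (by decide) (by decide)]; rfl
    · rw [v1, v2, v3 1 (by decide) (by decide)]; rfl
    · rw [v1, v2, v3 2 (by decide) (by decide)]; rfl
    · rw [v1, v2, v3 0 (by decide) (by decide)]; rfl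
    · rw [v1, v2, v3 1 (by decide) (by decide)]; rfl
    · rw [v1, v2, v3 0 (by decide) (by decide)]; rfl
  rw [hval] at hdv
  by_contra hcon
  rw [not_or] at hcon
  have z1 : ind {M.u i} v = 0 := (Pool.Agent.H21.UC.ind_val _ _).2 (by simpa using hcon.1)
  have z2 : ind {M.u (i + 1)} v = 0 := (Pool.Agent.H21.UC.ind_val _ _).2 (by simpa using hcon.2)
  rw [z1, z2, add_zero] at hdv
  exact one_ne_zero hdv

/-- union of the edges of the arc `C j` -/
noncomputable def AA (j : Fin n) : Set ℂ := ⋃ e ∈ M.C j, Pool.Agent.H21.UC.sg e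

lemma AA_closed (j : Fin n) : IsClosed (AA M j) :=
  (M.C j).finite_toSet.isClosed_biUnion (fun e _ => Pool.Agent.H21.UC.sg_closed e)

lemma mem_AA {j : Fin n} {z : ℂ} : z ∈ AA M j ↔ ∃ e ∈ M.C j, z ∈ Pool.Agent.H21.UC.sg e := by
  simp [AA]

lemma AA_inter {i j : Fin n} (hij : i ≠ j) {z : ℂ} (h : z ∈ AA M i) (h' : z ∈ AA M j) :
    z = pv (M.u i) ∨ z = pv (M.u (i + 1)) := by
  obtain ⟨e, he, hz⟩ := (mem_AA M).1 h
  obtain ⟨e', he', hz'⟩ := (mem_AA M).1 h'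
  have hne : e ≠ e' := by
    rintro rfl
    exact Finset.disjoint_left.1 (M.disj i j hij) he he'
  obtain ⟨v, hv, ⟨k, hk⟩, ⟨k', hk'⟩⟩ := Pool.Agent.H21.UC.sg_inter hz hz' hne
  rw [← hk] at he
  rw [← hk'] at he'
  rcases end_of_two M hij he he' with h1 | h1
  · left; rw [hv, h1]
  · right; rw [hv, h1]

lemma sg_sub_frontier {e : Ed} (hU : IsDom U) (he : isB U e) :
    Pool.Agent.H21.UC.sg e ⊆ frontier (reg U) := by
  intro z hz
  rw [(Pool.Agent.H11.UC.a1 U hU).2]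
  simp only [mem_iUnion, exists_prop]
  refine ⟨Pool.Agent.H21.UC.uv e, e.2.2, ?_, hz⟩
  rw [Pool.Agent.H21.UC.ed_uv]
  exact he

lemma frontier_sub {z : ℂ} (hU : IsDom U) (hz : z ∈ frontier (reg U)) : ∃ j, z ∈ AA M j := by
  rw [(Pool.Agent.H11.UC.a1 U hU).2] at hz
  simp only [mem_iUnion, exists_prop] at hz
  obtain ⟨v, k, hB, hz⟩ := hz
  obtain ⟨j, hj⟩ := (M.mem _).1 hB
  exact ⟨j, (mem_AA M).2 ⟨_, hj, by rwa [Pool.Agent.H21.UC.sg_ed]⟩⟩

lemma mark_mem (j : Fin n) : pv (M.u j) ∈ AA M j := by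
  obtain ⟨k, -, -, -, hk⟩ := M.out j
  exact (mem_AA M).2 ⟨_, hk, Pool.Agent.H21.UC.pv_mem_sg⟩

end Arcs

/-- **both arcs come close to the tip if the marks are close.** -/
lemma exists_close {U : Finset Fc} (M : Marks U 2) (hU : IsDom U) {φ : ℂ → ℂ}
    (hφ : DiscChart (reg U) φ) {p p' : ℂ} (hp : ‖p‖ = 1) (hp' : ‖p'‖ = 1) (h0 : φ p = pv (M.u 0))
    (h1 : φ p' = pv (M.u 1)) {q : Fin 2 → ℂ} (hq : ∀ j, ‖q j‖ = 1) (hqA : ∀ j, φ (q j) ∈ AA M j) :
    ∃ j, ‖q j - p‖ ≤ ‖p - p'‖ := by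
  by_contra hcon
  push Not at hcon
  have hpc := preconn_far hp ‖p - p'‖
  rw [isPreconnected_closed_iff] at hpc
  have hclosed : ∀ j, IsClosed (closedBall (0 : ℂ) 1 ∩ φ ⁻¹' AA M j) := fun j =>
    hφ.cont.preimage_isClosed_of_isClosed isClosed_closedBall (AA_closed M j)
  have hcirc : ∀ x : ℂ, ‖x‖ = 1 → x ∈ closedBall (0 : ℂ) 1 := fun x hx => by
    rw [mem_closedBall_zero_iff, hx]
  obtain ⟨y, hy, hy1, hy2⟩ := hpc _ _ (hclosed 0) (hclosed 1) (by
    intro y hy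
    obtain ⟨j, hj⟩ := frontier_sub M hU ((Pool.Agent.H21.UC.chart_circle hφ isOpen_interior hy.1.le).2 hy.1)
    fin_cases j
    · exact Or.inl ⟨hcirc y hy.1, hj⟩
    · exact Or.inr ⟨hcirc y hy.1, hj⟩)
    ⟨q 0, ⟨hq 0, hcon 0⟩, hcirc _ (hq 0), hqA 0⟩ ⟨q 1, ⟨hq 1, hcon 1⟩, hcirc _ (hq 1), hqA 1⟩
  rcases AA_inter M (i := 0) (j := 1) (by decide) hy1.2 hy2.2 with h | h
  · have : y = p := hφ.inj (hcirc y hy.1) (hcirc p hp) (by rw [h, h0])
    rw [this] at hy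
    have h3 := hy.2
    rw [sub_self, norm_zero] at h3
    exact absurd h3 (not_lt.2 (norm_nonneg _))
  · have : y = p' := hφ.inj (hcirc y hy.1) (hcirc p' hp') (by rw [h, h1]; rfl)
    rw [this] at hy
    have h3 := hy.2
    rw [norm_sub_rev] at h3
    exact lt_irrefl _ h3

/-! ### cells -/

lemma cell_meet {f g : Fc} (h : adjF f g) : (cell f ∩ cell g).Nonempty := by
  obtain ⟨e, h | h⟩ := h
  · obtain ⟨h1, h2⟩ := Pool.Agent.H21.UC.sg_lf e
    rw [h.1] at h1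
    rw [h.2] at h2
    exact ⟨_, h1 (left_mem_segment _ _ _), h2 (left_mem_segment _ _ _)⟩
  · obtain ⟨h1, h2⟩ := Pool.Agent.H21.UC.sg_lf e
    rw [h.1] at h1
    rw [h.2] at h2
    exact ⟨_, h2 (left_mem_segment _ _ _), h1 (left_mem_segment _ _ _)⟩

/-- the union of the cells of a path -/
lemma cells_path {F : Set Fc} {f g : Fc} (h : Jn F f g) : ∃ t : Set ℂ, IsPreconnected t ∧
    cell f ⊆ t ∧ cell g ⊆ t ∧ ∀ x ∈ t, x ∈ cell f ∨ ∃ a ∈ F, x ∈ cell a := by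
  induction h with
  | refl => exact ⟨cell f, (Pool.Agent.H69.UC.convex_cell f).isPreconnected, Subset.rfl, Subset.rfl,
      fun x hx => Or.inl hx⟩
  | @tail b c h1 h2 ih =>
    obtain ⟨t, ht1, ht2, ht3, ht4⟩ := ih
    obtain ⟨y, hy1, hy2⟩ := cell_meet h2.2
    refine ⟨t ∪ cell c, ht1.union y (ht3 hy1) hy2 (Pool.Agent.H69.UC.convex_cell c).isPreconnected,
      ht2.trans subset_union_left, subset_union_right, ?_⟩
    rintro x (hx | hx)
    · exact ht4 x hx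
    · exact Or.inr ⟨c, h2.1, hx⟩

open Pool.Agent.H69.UC (cA cB cA_ctr cB_ctr cA_sub cB_sub)

lemma sqrt3_ge : (1 : ℝ) ≤ √3 := by
  rw [Real.one_le_sqrt]; norm_num

lemma abs_cA_le (z : ℂ) : |cA z| ≤ 2 * ‖z‖ := by
  have h1 := Complex.abs_re_le_norm z
  have h2 := Complex.abs_im_le_norm z
  have h3 : |z.im / √3| ≤ |z.im| := by
    rw [abs_div, abs_of_pos (Real.sqrt_pos.2 (by norm_num : (0 : ℝ) < 3))]
    exact div_le_self (abs_nonneg _) sqrt3_ge
  have h4 := abs_sub z.re (z.im / √3)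
  unfold Pool.Agent.H69.UC.cA
  linarith

lemma abs_cB_le (z : ℂ) : |cB z| ≤ 2 * ‖z‖ := by
  have h2 := Complex.abs_im_le_norm z
  have h3 : |2 * z.im / √3| ≤ |2 * z.im| := by
    rw [abs_div, abs_of_pos (Real.sqrt_pos.2 (by norm_num : (0 : ℝ) < 3))]
    exact div_le_self (abs_nonneg _) sqrt3_ge
  unfold Pool.Agent.H69.UC.cB
  rw [abs_mul, abs_two] at h3
  linarith

/-- a point well inside a box contained in `U` -/
lemma box_reg {U : Finset Fc} {z0 : Fc} {R : ℝ}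
    (hbox : ∀ f : Fc, |(f.1:ℝ) - z0.1| ≤ R → |(f.2:ℝ) - z0.2| ≤ R → f ∈ U) {x : ℂ}
    (h1 : |cA x - z0.1| ≤ R - 1) (h2 : |cB x - z0.2| ≤ R - 1) : x ∈ reg U := by
  by_contra hcon
  obtain ⟨g, hg, hx⟩ := Pool.Agent.H69.UC.exists_outside hcon
  rw [Pool.Agent.H69.UC.mem_cell] at hx
  obtain ⟨a1, a2, a3⟩ := hx
  rw [abs_le] at a1 a2 a3 h1 h2
  refine hg (hbox g ?_ ?_)
  · rw [abs_le]; constructor <;> linarith
  · rw [abs_le]; constructor <;> linarith

lemma norm_om : ‖om‖ = 1 := by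
  unfold om
  have : (Real.pi * Complex.I / 3 : ℂ) = ((Real.pi / 3 : ℝ) : ℂ) * Complex.I := by
    push_cast; ring
  rw [this, Complex.norm_exp_ofReal_mul_I]

lemma norm_ctr_sub_le (f g : Fc) : ‖ctr f - ctr g‖ ≤ |(f.1:ℝ) - g.1| + |(f.2:ℝ) - g.2| := by
  have : ctr f - ctr g = (((f.1:ℝ) - g.1 : ℝ) : ℂ) + (((f.2:ℝ) - g.2 : ℝ) : ℂ) * om := by
    unfold ctr; push_cast; ring
  rw [this]
  refine (norm_add_le _ _).trans ?_
  rw [norm_mul, norm_om, mul_one, Complex.norm_real, Complex.norm_real, Real.norm_eq_abs,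
    Real.norm_eq_abs]

/-- one step towards the centre of the box -/
lemma step_in {b m R : ℝ} (h : |b - m| ≤ R) (hR : 2 ≤ R) :
    ∃ s : ℤ, (s = 0 ∨ s = 1 ∨ s = -1) ∧ |b + s - m| ≤ R - 1 := by
  rw [abs_le] at h
  rcases le_total b (m + (R - 1)) with h1 | h1
  · rcases le_total (m - (R - 1)) b with h2 | h2
    · exact ⟨0, Or.inl rfl, by rw [abs_le]; push_cast; constructor <;> linarith⟩
    · exact ⟨1, Or.inr (Or.inl rfl), by rw [abs_le]; push_cast; constructor <;> linarith⟩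
  · exact ⟨-1, Or.inr (Or.inr rfl), by rw [abs_le]; push_cast; constructor <;> linarith⟩

/-- **(b)** -/
def BB : Prop := ∀ c > (0:ℝ), ∀ C D0 : ℝ, ∃ s3 > (0:ℝ), ∃ K0 : ℝ, ∀ (U : Finset Fc)
  (col : Fc → Bool) (z z0 : Fc) (R : ℝ) (p : Pos), St U col → IsTip U col p → K0 ≤ R →
  (∀ f : Fc, |(f.1:ℝ) - z0.1| ≤ R → |(f.2:ℝ) - z0.2| ≤ R → f ∈ U) →
  |(z.1:ℝ) - z0.1| ≤ R / 4 → |(z.2:ℝ) - z0.2| ≤ R / 4 →
  (∃ b : Fc, |(b.1:ℝ) - z0.1| ≤ R ∧ |(b.2:ℝ) - z0.2| ≤ R ∧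
    Jn {f | f ∈ U ∧ ‖ctr f - pv p.1‖ ≤ D0} (ph p) b) →
  ∀ W : Set Fc, (∀ f ∈ W, f ∈ U ∧ ‖ctr f - ctr z0‖ ≤ C * R ∧ c * R ≤ ‖ctr f - pv p.1‖) →
  z ∈ W → (∀ f ∈ W, Jn W z f) →
  (∃ f ∈ W, ∃ g ∉ U, adjF f g ∧ col g = true) →
  (∃ f ∈ W, ∃ g ∉ U, adjF f g ∧ col g = false) → s3 ≤ sn U col z

/-- the sine of a state with a tip, in a chart -/
lemma sn_eq {U : Finset Fc} {col : Fc → Bool} {z : Fc} {p : Pos} (hS : St U col)
    (hp : IsTip U col p) (hz : z ∈ U) : ∃ (M : Marks U 2) (φ : ℂ → ℂ) (a b : ℂ),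
    DiscChart (reg U) φ ∧ φ 0 = ctr z ∧ ‖a‖ = 1 ∧ ‖b‖ = 1 ∧ φ a = pv (M.u 0) ∧ φ b = pv (M.u 1) ∧
    M.u 0 = p.1 ∧ sn U col z = ‖a - b‖ / 2 ∧
    (∀ e, isB U e → ∀ f, (f = lf e ∨ f = rf e) → f ∉ U → (e ∈ M.C 0 ↔ col f = false)) := by
  rcases Pool.Agent.H11.SM.ect U col hS with ⟨M, p1, q1, hp1, hq1, hM0, hM1, hup, huq, hC⟩ | ⟨h, -⟩
  swap
  · exact absurd hp (h p)
  have hE : ∃ t, TipE U col t := ⟨(p1.1, nb q1.1 q1.2), p1, q1, hp1, rfl, hq1, rfl⟩
  have hsn : sn U col z = snv U z hE.choose.1 hE.choose.2 := by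
    unfold sn
    rw [dif_pos hE]
  obtain ⟨p2, q2, hp2, h21, hq2, h22⟩ := hE.choose_spec
  rw [hup p2 hp2] at h21
  rw [huq q2 hq2] at h22
  rw [← h21, ← h22, hM0, hM1] at hsn
  obtain ⟨φ, hφ, h0⟩ := (Pool.Agent.H11.UC.a1 U hS.dom).1 (ctr z) (Pool.Agent.H21.UC.ctr_mem_of hz)
  have hpos : ∀ j, ∃ a, ‖a‖ = 1 ∧ φ a = pv (M.u j) := by
    intro j
    obtain ⟨k, -, -, -, hk⟩ := M.out j
    have h1 : pv (M.u j) ∈ frontier (reg U) :=
      sg_sub_frontier hS.dom ((M.mem _).2 ⟨j, hk⟩) Pool.Agent.H21.UC.pv_mem_sg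
    obtain ⟨a, ha, hφa⟩ := Pool.Agent.H21.UC.chart_surj hφ (frontier_subset_closure h1)
    rw [← hφa] at h1
    exact ⟨a, (Pool.Agent.H21.UC.chart_circle hφ isOpen_interior ha).1 h1, hφa⟩
  obtain ⟨a0, ha0, hφ0⟩ := hpos 0
  obtain ⟨a1, ha1, hφ1⟩ := hpos 1
  have hP : ∃ t, PosP U z (M.u 0) (M.u 1) t := ⟨(φ, a0, a1), hφ, h0, ha0, ha1, hφ0, hφ1⟩
  have hsn2 : snv U z (M.u 0) (M.u 1) = ‖hP.choose.2.1 - hP.choose.2.2‖ / 2 := by
    unfold snv
    rw [dif_pos hP]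
  obtain ⟨g1, g2, g3, g4, g5, g6⟩ := hP.choose_spec
  refine ⟨M, hP.choose.1, hP.choose.2.1, hP.choose.2.2, g1, g2, g3, g4, g5, g6, ?_, ?_, hC⟩
  · rw [← hM0, hup p hp]
  · rw [hsn, hsn2]

/-- the core: the marks are not close -/
theorem core {c C D1 R ε δ l : ℝ} (hc : 0 < c) (hR : 4 ≤ R) (hε : ε = min c 1 / 42)
    (hl : l = ε * R) (hδ : 0 < δ) (hδ1 : √δ < 1) (hδ2 : δ < √δ)
    (hlog : 4 * Real.pi * (Real.pi * ((|C| + 4) * R) ^ 2) / l ^ 2 ≤ Real.log (√δ / δ))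
    (hRD : 2 * (D1 + 4) < c * R) {U : Finset Fc}
    {z z0 : Fc} {T1 T2 : Set ℂ} {P a b y : ℂ} {b' : Fc} {φ : ℂ → ℂ} (hφ : DiscChart (reg U) φ)
    (h0 : φ 0 = ctr z) (ha : ‖a‖ = 1) (hφa : φ a = P) (hy : ‖y‖ ≤ 1) (hya : ‖y - a‖ ≤ ‖a - b‖)
    (hab : ‖a - b‖ < δ)
    (hbox : ∀ f : Fc, |(f.1:ℝ) - z0.1| ≤ R → |(f.2:ℝ) - z0.2| ≤ R → f ∈ U)
    (hz1 : |(z.1:ℝ) - z0.1| ≤ R / 4) (hz2 : |(z.2:ℝ) - z0.2| ≤ R / 4)
    (hb1 : |(b'.1:ℝ) - z0.1| ≤ R - 1) (hb2 : |(b'.2:ℝ) - z0.2| ≤ R - 1)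
    (hT1 : IsPreconnected T1) (hT1s : T1 ⊆ closure (reg U)) (hzT : ctr z ∈ T1) (hyT : φ y ∈ T1)
    (hT1a : ∀ x ∈ T1, dist x (ctr z0) ≤ |C| * R + 2 ∧ c * R - 2 ≤ dist x P)
    (hT2 : IsPreconnected T2) (hT2s : T2 ⊆ closure (reg U)) (hbT : ctr b' ∈ T2) (hPT : P ∈ T2)
    (hT2a : ∀ x ∈ T2, dist x P ≤ D1 + 2) (hb'P : dist (ctr b') P ≤ D1) : False := by
  have hR0 : 0 < R := by linarith
  have hm1 : min c 1 ≤ 1 := min_le_right _ _
  have hm2 : min c 1 ≤ c := min_le_left _ _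
  have hm0 : 0 < min c 1 := lt_min hc one_pos
  have hε0 : 0 < ε := by rw [hε]; positivity
  have hl0 : 0 < l := by rw [hl]; positivity
  have hl1 : l ≤ R / 42 := by rw [hl, hε]; nlinarith
  have hl2 : 42 * l ≤ c * R := by rw [hl, hε]; nlinarith
  obtain ⟨ρ, hρ, hlen⟩ := Pool.Agent.H69.UC.exists_circle (q := a) (z := ctr z0) (δ := δ) (l := l)
    (B := (|C| + 4) * R) hφ.cont hφ.diff hφ.inj hδ hδ2 hl0 (by have := abs_nonneg C; positivity) hlog
  have hρ0 : 0 < ρ := hδ.trans hρ.1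
  have hρ1 : ρ < 1 := hρ.2.trans hδ1
  have hmeet : ∀ T : Set ℂ, IsPreconnected T → T ⊆ closure (reg U) → ctr z ∈ T →
      (∃ y, ‖y‖ ≤ 1 ∧ ‖y - a‖ < ρ ∧ φ y ∈ T) → ∃ w, ‖w‖ ≤ 1 ∧ dist w a = ρ ∧ φ w ∈ T := by
    rintro T h1 h2 h3 ⟨y, hy1, hy2, hy3⟩
    have hpc := Pool.Agent.H21.UC.chart_preconn hφ h1 h2
    have m1 : y ∈ closedBall (0 : ℂ) 1 ∩ φ ⁻¹' T := ⟨by simpa using hy1, hy3⟩
    have m2 : (0 : ℂ) ∈ closedBall (0 : ℂ) 1 ∩ φ ⁻¹' T := ⟨by simp, by rw [mem_preimage, h0]; exact h3⟩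
    have hcf : ContinuousOn (fun w : ℂ => dist w a) (closedBall (0 : ℂ) 1 ∩ φ ⁻¹' T) := by fun_prop
    obtain ⟨w, hw, he⟩ := hpc.intermediate_value m1 m2 hcf (show ρ ∈ Icc _ _ from ⟨by
      rw [dist_eq_norm]; exact hy2.le, by rw [dist_eq_norm, zero_sub, norm_neg, ha]; exact hρ1.le⟩)
    exact ⟨w, by simpa using hw.1, he, hw.2⟩
  obtain ⟨w1, hw1, hw1a, hw1T⟩ := hmeet T1 hT1 hT1s hzT ⟨y, hy, by linarith [hρ.1], hyT⟩
  have hseg : segment ℝ (ctr b') (ctr z) ⊆ reg U := by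
    intro x hx
    rw [segment_eq_image'] at hx
    obtain ⟨t, ht, rfl⟩ := hx
    have e1 : cA (ctr b' + t • (ctr z - ctr b')) = (1 - t) * b'.1 + t * z.1 := by
      rw [Pool.Agent.H69.UC.cA_add, cA_ctr]
      have : cA (t • (ctr z - ctr b')) = t * cA (ctr z - ctr b') := by
        simp only [Pool.Agent.H69.UC.cA, Complex.real_smul, Complex.mul_re, Complex.mul_im,
          Complex.ofReal_re, Complex.ofReal_im]
        ring
      rw [this, cA_sub, cA_ctr, cA_ctr]; ring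
    have e2 : cB (ctr b' + t • (ctr z - ctr b')) = (1 - t) * b'.2 + t * z.2 := by
      rw [Pool.Agent.H69.UC.cB_add, cB_ctr]
      have : cB (t • (ctr z - ctr b')) = t * cB (ctr z - ctr b') := by
        simp only [Pool.Agent.H69.UC.cB, Complex.real_smul, Complex.mul_im,
          Complex.ofReal_re, Complex.ofReal_im]
        ring
      rw [this, cB_sub, cB_ctr, cB_ctr]; ring
    rw [abs_le] at hz1 hz2 hb1 hb2
    apply box_reg hbox
    · rw [e1, abs_le]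
      constructor <;> nlinarith [ht.1, ht.2]
    · rw [e2, abs_le]
      constructor <;> nlinarith [ht.1, ht.2]
  obtain ⟨w2, hw2, hw2a, hw2T⟩ := hmeet (T2 ∪ segment ℝ (ctr b') (ctr z))
    (hT2.union _ hbT (left_mem_segment _ _ _) (convex_segment _ _).isPreconnected)
    (union_subset hT2s (hseg.trans subset_closure)) (Or.inr (right_mem_segment _ _ _))
    ⟨a, ha.le, by rw [sub_self, norm_zero]; exact hρ0, by rw [hφa]; exact Or.inl hPT⟩
  obtain ⟨w3, hw3a, hw3⟩ := Pool.Agent.H69.UC.exists_unit hρ0 hρ1 ha.le (by rw [ha]; linarith)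
  have hout := Pool.Agent.H69.UC.chart_not_mem hφ hw3
  obtain ⟨g1, g2⟩ := hT1a _ hw1T
  have hB : dist (φ w1) (ctr z0) + l < (|C| + 4) * R := by nlinarith
  have s2 := Pool.Agent.H69.UC.short hφ.cont hφ.diff hρ0 hρ1 hl0.le hlen hw1 hw2 hw1a hw2a hB
  have s3 := Pool.Agent.H69.UC.short hφ.cont hφ.diff hρ0 hρ1 hl0.le hlen hw1 hw3.le hw1a hw3a hB
  have tri := dist_triangle_left (φ w1) P (φ w2)
  have key : dist (φ w2) P ≤ D1 + 2 + 20 * l := by
    rcases hw2T with h | h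
    · linarith [hT2a _ h]
    · have hd : dist (φ w2) (φ w3) ≤ 2 * l := by
        have := dist_triangle_right (φ w2) (φ w3) (φ w1)
        linarith
      rw [segment_eq_image'] at h
      obtain ⟨t, ht, he⟩ := h
      have e1 : cA (ctr b' + t • (ctr z - ctr b')) = (1 - t) * b'.1 + t * z.1 := by
        rw [Pool.Agent.H69.UC.cA_add, cA_ctr]
        have : cA (t • (ctr z - ctr b')) = t * cA (ctr z - ctr b') := by
          simp only [Pool.Agent.H69.UC.cA, Complex.real_smul, Complex.mul_re, Complex.mul_im,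
            Complex.ofReal_re, Complex.ofReal_im]
          ring
        rw [this, cA_sub, cA_ctr, cA_ctr]; ring
      have e2 : cB (ctr b' + t • (ctr z - ctr b')) = (1 - t) * b'.2 + t * z.2 := by
        rw [Pool.Agent.H69.UC.cB_add, cB_ctr]
        have : cB (t • (ctr z - ctr b')) = t * cB (ctr z - ctr b') := by
          simp only [Pool.Agent.H69.UC.cB, Complex.real_smul, Complex.mul_im,
            Complex.ofReal_re, Complex.ofReal_im]
          ring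
        rw [this, cB_sub, cB_ctr, cB_ctr]; ring
      have hA := abs_cA_le (φ w3 - φ w2)
      have hBB := abs_cB_le (φ w3 - φ w2)
      rw [← dist_eq_norm, dist_comm] at hA hBB
      rw [cA_sub] at hA
      rw [cB_sub] at hBB
      simp only at he
      have htR : t * R ≤ 8 * l := by
        by_contra hcon
        rw [not_le] at hcon
        apply hout
        have hA' := abs_le.1 (hA.trans (by linarith : 2 * dist (φ w2) (φ w3) ≤ 4 * l))
        have hB' := abs_le.1 (hBB.trans (by linarith : 2 * dist (φ w2) (φ w3) ≤ 4 * l))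
        rw [← he, e1] at hA'
        rw [← he, e2] at hB'
        rw [abs_le] at hz1 hz2 hb1 hb2
        have ht0 := ht.1
        have ht1 : 0 ≤ 1 - t := by linarith [ht.2]
        have q1 := mul_le_mul_of_nonneg_left hb1.1 ht1
        have q2 := mul_le_mul_of_nonneg_left hb1.2 ht1
        have q3 := mul_le_mul_of_nonneg_left hb2.1 ht1
        have q4 := mul_le_mul_of_nonneg_left hb2.2 ht1
        have q5 := mul_le_mul_of_nonneg_left hz1.1 ht0
        have q6 := mul_le_mul_of_nonneg_left hz1.2 ht0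
        have q7 := mul_le_mul_of_nonneg_left hz2.1 ht0
        have q8 := mul_le_mul_of_nonneg_left hz2.2 ht0
        have q9 := mul_le_mul_of_nonneg_left hR ht0
        apply box_reg hbox
        · rw [abs_le]; constructor <;> linarith
        · rw [abs_le]; constructor <;> linarith
      have hdist : dist (φ w2) (ctr b') ≤ 20 * l := by
        rw [← he, dist_eq_norm, add_sub_cancel_left, norm_smul, Real.norm_eq_abs,
          abs_of_nonneg ht.1]
        have h1 := norm_ctr_sub_le z b'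
        rw [abs_le] at hz1 hz2 hb1 hb2
        have h2 : |(z.1:ℝ) - b'.1| ≤ 5 / 4 * R := by rw [abs_le]; constructor <;> linarith
        have h3 : |(z.2:ℝ) - b'.2| ≤ 5 / 4 * R := by rw [abs_le]; constructor <;> linarith
        have h4 : ‖ctr z - ctr b'‖ ≤ 5 / 2 * R := by linarith
        have h5 := mul_le_mul_of_nonneg_left h4 ht.1
        linarith
      have := dist_triangle (φ w2) (ctr b') P
      linarith
  linarith

/-- **(b)** holds. -/
theorem bb : BB := by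
  intro c hc C D0
  obtain ⟨ε, hε⟩ : ∃ ε, ε = min c 1 / 42 := ⟨_, rfl⟩
  have hm0 : 0 < min c 1 := lt_min hc one_pos
  have hε0 : 0 < ε := by rw [hε]; positivity
  obtain ⟨Λ, hΛ⟩ : ∃ Λ : ℝ, Λ = 4 * Real.pi * (Real.pi * (|C| + 4) ^ 2) / ε ^ 2 := ⟨_, rfl⟩
  have hΛ0 : 0 < Λ := by
    have := abs_nonneg C
    rw [hΛ]; positivity
  obtain ⟨s, hs⟩ : ∃ s, s = Real.exp (-Λ) := ⟨_, rfl⟩
  have hs0 : 0 < s := by rw [hs]; positivity
  have hs1 : s < 1 := by rw [hs, ← Real.exp_zero]; exact Real.exp_lt_exp.2 (by linarith)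
  have hsq : √(s ^ 2) = s := Real.sqrt_sq hs0.le
  obtain ⟨D1, hD1⟩ : ∃ D1 : ℝ, D1 = |D0| + 4 := ⟨_, rfl⟩
  have hD10 : 4 ≤ D1 := by rw [hD1]; linarith [abs_nonneg D0]
  refine ⟨s ^ 2 / 2, by positivity, 4 + 2 * (D1 + 8 + 4) / c + 1, ?_⟩
  intro U col z z0 R p hS hp hKR hbox hz1 hz2 hbj W hW hzW hWc hWb hWw
  have p1 : 0 < 2 * (D1 + 8 + 4) / c := by positivity
  have hR4 : 4 ≤ R := by linarith
  have hRD : 2 * (D1 + 8 + 4) < c * R := by
    have h1 : 2 * (D1 + 8 + 4) / c < R := by linarith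
    rw [div_lt_iff₀ hc] at h1
    linarith
  have hR0 : 0 < R := by linarith
  obtain ⟨M, φ, a, b, hφ, h0, ha, hb, hφa, hφb, hM0, hsn, hC⟩ := sn_eq hS hp (hW z hzW).1
  by_contra hcon
  rw [hsn, not_le] at hcon
  have hab : ‖a - b‖ < s ^ 2 := by linarith
  -- touching points
  have htouch : ∀ j : Fin 2, ∃ f ∈ W, ∃ q : ℂ, ‖q‖ = 1 ∧ φ q ∈ AA M j ∧ φ q ∈ cell f := by
    intro j
    obtain ⟨f, hf, g, hg, hfg, hcg⟩ : ∃ f ∈ W, ∃ g ∉ U, adjF f g ∧ (col g = false ↔ j = 0) := by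
      fin_cases j
      · obtain ⟨f, hf, g, hg, h1, h2⟩ := hWw
        exact ⟨f, hf, g, hg, h1, by simp [h2]⟩
      · obtain ⟨f, hf, g, hg, h1, h2⟩ := hWb
        exact ⟨f, hf, g, hg, h1, by simp [h2]⟩
    obtain ⟨e, he⟩ := hfg
    have hfU := (hW f hf).1
    have hB : isB U e := by
      rcases he with ⟨h1, h2⟩ | ⟨h1, h2⟩
      · left; rw [h1, h2]; exact ⟨hfU, hg⟩
      · right; rw [h1, h2]; exact ⟨hg, hfU⟩
    have hg' : g = lf e ∨ g = rf e := by
      rcases he with ⟨h1, h2⟩ | ⟨h1, h2⟩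
      · right; exact h2.symm
      · left; exact h1.symm
    have hCe := hC e hB g hg' hg
    have hej : e ∈ M.C j := by
      obtain ⟨i, hi⟩ := (M.mem e).1 hB
      fin_cases j
      · exact hCe.2 (hcg.2 rfl)
      · fin_cases i
        · exact absurd (hcg.1 (hCe.1 hi)) (by decide)
        · exact hi
    have hmem : pv (Pool.Agent.H21.UC.uv e) ∈ Pool.Agent.H21.UC.sg e := left_mem_segment _ _ _
    have hfr := sg_sub_frontier hS.dom hB hmem
    obtain ⟨q, hq, hφq⟩ := Pool.Agent.H21.UC.chart_surj hφ (frontier_subset_closure hfr)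
    refine ⟨f, hf, q, ?_, ?_, ?_⟩
    · rw [← hφq] at hfr
      exact (Pool.Agent.H21.UC.chart_circle hφ isOpen_interior hq).1 hfr
    · rw [hφq]
      exact (mem_AA M).2 ⟨e, hej, hmem⟩
    · rw [hφq]
      obtain ⟨h3, h4⟩ := Pool.Agent.H21.UC.sg_lf e
      rcases he with ⟨h1, h2⟩ | ⟨h1, h2⟩
      · rw [← h1]; exact h3 hmem
      · rw [← h2]; exact h4 hmem
  choose F hF q hq1 hqA hqF using htouch
  obtain ⟨j, hj⟩ := exists_close M hS.dom hφ ha hb hφa hφb hq1 hqA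
  obtain ⟨T1, hT1, hT1z, hT1f, hT1s⟩ := cells_path (hWc _ (hF j))
  have hT1W : ∀ x ∈ T1, ∃ f ∈ W, x ∈ cell f := by
    intro x hx
    rcases hT1s x hx with h | h
    · exact ⟨z, hzW, h⟩
    · exact h
  obtain ⟨b0, hb01, hb02, hjn⟩ := hbj
  -- the local path, extended by two steps
  obtain ⟨s1, hs1', hb1'⟩ := step_in hb01 (by linarith)
  obtain ⟨s2, hs2', hb2'⟩ := step_in hb02 (by linarith)
  obtain ⟨T0, hT0, hT0a, hT0b, hT0s⟩ := cells_path hjn
  have hph : ∀ x ∈ T0, dist x (pv p.1) ≤ D1 := by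
    intro x hx
    rcases hT0s x hx with h | ⟨f, hf, h⟩
    · have h1 := Pool.Agent.H69.UC.dist_ctr_le h
      have h2 := Pool.Agent.H69.UC.dist_ctr_le (Pool.Agent.H69.UC.pv_mem_cell p.1 p.2)
      have h3 := dist_triangle_right x (pv p.1) (ctr (ph p))
      have h4 := abs_nonneg D0
      change dist (pv p.1) (ctr (ph p)) ≤ 2 at h2
      linarith
    · have h1 := Pool.Agent.H69.UC.dist_ctr_le h
      have h2 := hf.2
      rw [← dist_eq_norm] at h2
      have h3 := dist_triangle x (ctr f) (pv p.1)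
      have h4 := le_abs_self D0
      linarith
  have hT0U : T0 ⊆ closure (reg U) := by
    intro x hx
    rcases hT0s x hx with h | ⟨f, hf, h⟩
    · exact Pool.Agent.H21.UC.cell_sub_closure hp.1 h
    · exact Pool.Agent.H21.UC.cell_sub_closure hf.1 h
  have hstep : ∀ (s : ℤ) (f g : Fc), (s = 0 ∨ s = 1 ∨ s = -1) →
      ((g.1 = f.1 + s ∧ g.2 = f.2) ∨ (g.1 = f.1 ∧ g.2 = f.2 + s)) →
      f = g ∨ adjF f g := by
    intro s f g hs hfg
    rcases hs with rfl | rfl | rfl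
    · left
      rw [add_zero, add_zero] at hfg
      rcases hfg with h | h <;> exact Prod.ext h.1.symm h.2.symm
    · right; rw [adjF_iff]; omega
    · right; rw [adjF_iff]; omega
  have hext : ∀ (T : Set ℂ) (f g : Fc), IsPreconnected T → T ⊆ closure (reg U) → cell f ⊆ T →
      g ∈ U → (f = g ∨ adjF f g) → ∀ D, (∀ x ∈ T, dist x (pv p.1) ≤ D) → 0 ≤ D →
      ∃ T', IsPreconnected T' ∧ T' ⊆ closure (reg U) ∧ T ⊆ T' ∧ cell g ⊆ T' ∧
        ∀ x ∈ T', dist x (pv p.1) ≤ D + 4 := by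
    intro T f g hT hTs hf hg hfg D hD hD0
    rcases hfg with rfl | hfg
    · exact ⟨T, hT, hTs, Subset.rfl, hf, fun x hx => (hD x hx).trans (by linarith)⟩
    · obtain ⟨y, hy1, hy2⟩ := cell_meet hfg
      refine ⟨T ∪ cell g, hT.union y (hf hy1) hy2 (Pool.Agent.H69.UC.convex_cell g).isPreconnected,
        union_subset hTs (Pool.Agent.H21.UC.cell_sub_closure hg), subset_union_left,
        subset_union_right, ?_⟩
      rintro x (hx | hx)
      · exact (hD x hx).trans (by linarith)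
      · have h1 := Pool.Agent.H69.UC.dist_ctr_le hx
        have h2 := Pool.Agent.H69.UC.dist_ctr_le hy2
        have h3 := hD y (hf hy1)
        have h4 := dist_triangle_right x y (ctr g)
        have h5 := dist_triangle x y (pv p.1)
        linarith
  have hm1 : |((b0.1 + s1 : ℤ) : ℝ) - z0.1| ≤ R - 1 := by
    have : ((b0.1 + s1 : ℤ) : ℝ) = b0.1 + s1 := by push_cast; ring
    rw [this]; exact hb1'
  have hm2 : |((b0.2 + s2 : ℤ) : ℝ) - z0.2| ≤ R - 1 := by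
    have : ((b0.2 + s2 : ℤ) : ℝ) = b0.2 + s2 := by push_cast; ring
    rw [this]; exact hb2'
  obtain ⟨T', t1, t2, t3, t4, t5⟩ := hext T0 b0 (b0.1 + s1, b0.2) hT0 hT0U hT0b
    (hbox _ (hm1.trans (by linarith)) hb02) (hstep s1 _ _ hs1' (Or.inl ⟨rfl, rfl⟩)) D1 hph
    (by linarith)
  obtain ⟨T2, u1, u2, u3, u4, u5⟩ := hext T' (b0.1 + s1, b0.2) (b0.1 + s1, b0.2 + s2) t1 t2 t4
    (hbox _ (hm1.trans (by linarith)) (hm2.trans (by linarith)))
    (hstep s2 _ _ hs2' (Or.inr ⟨rfl, rfl⟩)) (D1 + 4) t5 (by linarith)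
  have hlog : 4 * Real.pi * (Real.pi * ((|C| + 4) * R) ^ 2) / (ε * R) ^ 2 ≤
      Real.log (√(s ^ 2) / s ^ 2) := by
    rw [hsq]
    have h1 : s / s ^ 2 = s⁻¹ := by field_simp
    rw [h1, Real.log_inv, hs, Real.log_exp, neg_neg, hΛ]
    apply le_of_eq
    field_simp
  refine core (D1 := D1 + 8) hc hR4 hε rfl (by positivity : 0 < s ^ 2) (by rw [hsq]; exact hs1)
    (by rw [hsq]; nlinarith) hlog hRD hφ h0 ha (hφa.trans (by rw [hM0])) (hq1 j).le hj hab hbox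
    hz1 hz2 (b' := (b0.1 + s1, b0.2 + s2)) hm1 hm2 hT1 ?_ (hT1z (Pool.Agent.H69.UC.ctr_mem_cell z))
    (hT1f (hqF j)) ?_ u1 u2 (u4 (Pool.Agent.H69.UC.ctr_mem_cell _)) ?_ ?_ ?_
  · intro x hx
    obtain ⟨f, hf, h⟩ := hT1W x hx
    exact Pool.Agent.H21.UC.cell_sub_closure (hW f hf).1 h
  · intro x hx
    obtain ⟨f, hf, h⟩ := hT1W x hx
    obtain ⟨-, h1, h2⟩ := hW f hf
    have h3 := Pool.Agent.H69.UC.dist_ctr_le h
    rw [← dist_eq_norm] at h1 h2
    have h4 := dist_triangle x (ctr f) (ctr z0)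
    have h5 := dist_triangle_left (ctr f) (pv p.1) x
    have h6 := mul_le_mul_of_nonneg_right (le_abs_self C) hR0.le
    constructor <;> linarith
  · exact u3 (t3 (hT0a (Pool.Agent.H69.UC.pv_mem_cell p.1 p.2)))
  · intro x hx
    exact (u5 x hx).trans (by linarith)
  · exact (u5 _ (u4 (Pool.Agent.H69.UC.ctr_mem_cell _))).trans (by linarith)

end Pool.Agent.H45.SM
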